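import Pool.Agent.Helper91K9.EP.Coef
import Pool.Agent.Helper91K9.EP.Low
import Pool.Agent.Helper91K9.EP.Lip
import Pool.Agent.Helper91K9.EP.Line
import Pool.Agent.Helper91K9.EP.Rect
import Pool.Agent.Helper91K9.EP.Grid
import Pool.Agent.Helper91K9.EP.Off
import Pool.Agent.Helper91K9.EP.Mom
import Pool.Agent.Helper91K9.EP.Sng
import Pool.Agent.Helper91K9.EP.Net
import Pool.Agent.Helper91K9.EP.Fin

/-!
# The exponent pair bound for almost all affine changes of variable of every admissible function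
-/

set_option autoImplicit false

namespace Pool.Agent.Results.MP_493793_nt.AllAdmissibleFunctions

open MeasureTheory
open Pool.Agent.Helper91K9.EP

/-- Let `ε > 0` and let `B`, `d` be natural numbers. There are natural numbers `A` and `P` such that for all
real sequences `c`, `C` with `c j > 0` there is `K` with the following property. Let `N ≥ 2`, `F ≥ N^A` and let
`f` be a smooth function on `[N, 2N]` with `c_j F / N^j ≤ |f^(j)| ≤ C_j F / N^j` on `[N, 2N]` for all `j ≤ P`.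
Then for all `(s, u)` in the unit square outside a set of measure at most `K / N^B` all the sums of
`e((1 + t) f(n + s n / N + u) + Q(n))` over `N1 ≤ n ≤ N2`, with `N < N1 ≤ N2 < 2N - 4`, `t ≥ 0`, `t F ≤ N^B` and
`Q` a real polynomial of degree at most `d`, are at most `(N2 - N1 + 1)^(1/2) N^ε` in absolute value. -/
theorem result : ∀ ε : ℝ, 0 < ε → ∀ B d : ℕ, ∃ A P : ℕ, ∀ c C : ℕ → ℝ, (∀ j, 0 < c j) →
    ∃ K : ℝ, ∀ N F : ℝ, ∀ f : ℝ → ℝ, 2 ≤ N → N ^ A ≤ F →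
      ContDiffOn ℝ (⊤ : ℕ∞) f (Set.Icc N (2 * N)) →
      (∀ j ≤ P, ∀ x ∈ Set.Icc N (2 * N),
        c j * F / N ^ j ≤ |iteratedDerivWithin j f (Set.Icc N (2 * N)) x| ∧
        |iteratedDerivWithin j f (Set.Icc N (2 * N)) x| ≤ C j * F / N ^ j) →
      volume {p : ℝ × ℝ | p.1 ∈ Set.Icc (0 : ℝ) 1 ∧ p.2 ∈ Set.Icc (0 : ℝ) 1 ∧
        ∃ t : ℝ, 0 ≤ t ∧ t * F ≤ N ^ B ∧ ∃ Q : Polynomial ℝ, Q.natDegree ≤ d ∧
        ∃ N1 N2 : ℕ, N < (N1 : ℝ) ∧ N1 ≤ N2 ∧ (N2 : ℝ) + 4 < 2 * N ∧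
        ((N2 : ℝ) - N1 + 1) ^ (1 / 2 : ℝ) * N ^ ε <
          ‖∑ n ∈ Finset.Icc N1 N2, Complex.exp (2 * (Real.pi : ℂ) * Complex.I *
            (((1 + t) * f ((n : ℝ) + p.1 * ((n : ℝ) / N) + p.2) + Q.eval (n : ℝ) : ℝ) : ℂ))‖} ≤
      ENNReal.ofReal (K / N ^ B) :=
  fin (net (sng (mom (off (low coef) lip line (grid rect)))))

end Pool.Agent.Results.MP_493793_nt.AllAdmissibleFunctions
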