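import Pool.Agent.Helper91K9.EP.Off1
import Pool.Agent.Helper91K9.EP.Mom1
import Pool.Agent.Helper91K9.EP.Sng1
import Pool.Agent.Helper91K9.EP.Net1
import Pool.Agent.Helper91K9.EP.Fin1

/-!
# The exponent pair bound for monomials with almost all exponents, and for almost all members of the
multiplicative deformations of every function
-/

set_option autoImplicit false

namespace Pool.Agent.Results.MP_493793_nt.AlmostAllExponents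

open MeasureTheory Filter
open Pool.Agent.Helper91K9.EP

/-- Let `ε > 0` and let `B`, `d` be natural numbers.

(1) For every `b` there are `A` and `K` such that for all `N ≥ 2`, `F ≥ N^A` and all real `a_n`, `y_n` with
`F ≤ |a_n| ≤ N^b F`, `N^(-b) ≤ y_n ≤ b log N` and `|y_n - y_m| ≥ N^(-b)` (`n ≠ m` in `(N, 2N)`), for all `s` in
`[0, 1]` outside a set of measure at most `K / N^B` all the sums of `e((1 + t) a_n exp(s y_n) + Q(n))` over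
`N1 ≤ n ≤ N2` (`N < N1 ≤ N2 < 2N`, `t ≥ 0`, `t F ≤ N^B`, `deg Q ≤ d`) are at most `(N2 - N1 + 1)^(1/2) N^ε`.

(2) For every `M` there is `A` such that for all `T_N ≥ N^A` (for large `N`) and for almost every real `α` with
`|α| ≤ M`: for all large `N` all the sums of `e((T_N + t) n^α + Q(n))` over `N1 ≤ n ≤ N2`
(`N < N1 ≤ N2 < 2N`, `0 ≤ t ≤ N^B`, `deg Q ≤ d`) are at most `(N2 - N1 + 1)^(1/2) N^ε`. -/
theorem result : ∀ ε : ℝ, 0 < ε → ∀ B d : ℕ,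
    (∀ b : ℕ, ∃ A : ℕ, ∃ K : ℝ, ∀ (N F : ℝ) (a y : ℕ → ℝ), 2 ≤ N → N ^ A ≤ F →
      (∀ n : ℕ, N < n → (n : ℝ) < 2 * N →
        F ≤ |a n| ∧ |a n| ≤ N ^ b * F ∧ 1 / N ^ b ≤ y n ∧ y n ≤ b * Real.log N) →
      (∀ n m : ℕ, N < n → (n : ℝ) < 2 * N → N < m → (m : ℝ) < 2 * N → n ≠ m →
        1 / N ^ b ≤ |y n - y m|) →
      volume {s : ℝ | s ∈ Set.Icc (0 : ℝ) 1 ∧ ∃ t : ℝ, 0 ≤ t ∧ t * F ≤ N ^ B ∧
        ∃ Q : Polynomial ℝ, Q.natDegree ≤ d ∧ ∃ N1 N2 : ℕ, N < (N1 : ℝ) ∧ N1 ≤ N2 ∧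
        (N2 : ℝ) < 2 * N ∧ ((N2 : ℝ) - N1 + 1) ^ (1 / 2 : ℝ) * N ^ ε <
          ‖∑ n ∈ Finset.Icc N1 N2, Complex.exp (2 * (Real.pi : ℂ) * Complex.I *
            (((1 + t) * (a n * Real.exp (s * y n)) + Q.eval (n : ℝ) : ℝ) : ℂ))‖} ≤
      ENNReal.ofReal (K / N ^ B)) ∧
    (∀ M : ℕ, ∃ A : ℕ, ∀ T : ℕ → ℝ, (∀ᶠ N : ℕ in atTop, (N : ℝ) ^ A ≤ T N) →
      ∀ᵐ α : ℝ, |α| ≤ M → ∀ᶠ N : ℕ in atTop,
        ∀ t : ℝ, 0 ≤ t → t ≤ (N : ℝ) ^ B → ∀ Q : Polynomial ℝ, Q.natDegree ≤ d →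
        ∀ N1 N2 : ℕ, N < N1 → N1 ≤ N2 → N2 < 2 * N →
        ‖∑ n ∈ Finset.Icc N1 N2, Complex.exp (2 * (Real.pi : ℂ) * Complex.I *
          (((T N + t) * (n : ℝ) ^ α + Q.eval (n : ℝ) : ℝ) : ℂ))‖ ≤
        ((N2 : ℝ) - N1 + 1) ^ (1 / 2 : ℝ) * (N : ℝ) ^ ε) := by
  have hNET := net1 (sng1 (mom1 off1))
  intro ε hε B d
  refine ⟨fun b => ?_, fun M => mono hNET ε hε B d M⟩
  obtain ⟨A, K, hK⟩ := hNET ε hε B d b
  refine ⟨A, K, fun N F a y hN hF h1 h2 => hK F N a y hN hF ?_⟩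
  have hN0 : 0 < N := by linarith
  refine ⟨fun n hn hn2 => (h1 n hn hn2).1, fun n hn hn2 => (h1 n hn hn2).2.1,
    fun n hn hn2 => (h1 n hn hn2).2.2.1, fun n hn hn2 => ?_, h2⟩
  have h3 := (h1 n hn hn2).2.2.2
  calc Real.exp (y n) ≤ Real.exp (b * Real.log N) := Real.exp_le_exp.mpr h3
    _ = N ^ b := by rw [Real.exp_nat_mul, Real.exp_log hN0]

end Pool.Agent.Results.MP_493793_nt.AlmostAllExponents
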