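import Pool.Agent.Helper91K9.EP.Coef
import Pool.Agent.Helper91K9.EP.Low
import Pool.Agent.Helper91K9.EP.Lip
import Pool.Agent.Helper91K9.EP.Line
import Pool.Agent.Helper91K9.EP.Rect
import Pool.Agent.Helper91K9.EP.Grid
import Pool.Agent.Helper91K9.EP.Offb
import Pool.Agent.Helper91K9.EP.Cnt
import Pool.Agent.Helper91K9.EP.Asy
import Pool.Agent.Helper91K9.EP.Pos

/-!
# All the moments of the exponential sums of every admissible function over its affine changes of variable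
-/

set_option autoImplicit false

namespace Pool.Agent.Results.MP_493793_nt.GaussianMoments

open MeasureTheory
open Pool.Agent.Helper91K9.EP

/-- For every admissible function `f` (derivatives `≍ F / N^j` on `[N, 2N]`) with `F ≥ N^A`, all real `r_n` and
every interval `N1 ≤ n ≤ N2` (`N < N1 ≤ N2 < 2N - 4`), put `S(s, u) = ∑ e(f(n + s n / N + u) + r_n)`.

(1) For every `k ≥ 1`, if `A = A(k)`, the mean value of `|S(s, u)|^(2k)` over the unit square is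
`k! (N2 - N1 + 1)^k + O((N2 - N1 + 1)^(k - 1))`.

(2) For all intervals of length at least `n0`, `|S(s, u)|^2 ≥ (N2 - N1 + 1) / 2` for a set of `(s, u)` of measure
at least `1/16` in the unit square. -/
theorem result :
    (∀ k : ℕ, 1 ≤ k → ∃ A P : ℕ, ∀ c C : ℕ → ℝ, (∀ j, 0 < c j) →
      ∃ K : ℝ, ∀ N F : ℝ, ∀ f : ℝ → ℝ, 2 ≤ N → N ^ A ≤ F →
        ContDiffOn ℝ (⊤ : ℕ∞) f (Set.Icc N (2 * N)) →
        (∀ j ≤ P, ∀ x ∈ Set.Icc N (2 * N),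
          c j * F / N ^ j ≤ |iteratedDerivWithin j f (Set.Icc N (2 * N)) x| ∧
          |iteratedDerivWithin j f (Set.Icc N (2 * N)) x| ≤ C j * F / N ^ j) →
        ∀ (r : ℕ → ℝ) (N1 N2 : ℕ), N < (N1 : ℝ) → N1 ≤ N2 → (N2 : ℝ) + 4 < 2 * N →
        |(∫ p in (Set.Icc (0 : ℝ) 1) ×ˢ (Set.Icc (0 : ℝ) 1), ‖∑ n ∈ Finset.Icc N1 N2,
            Complex.exp (2 * (Real.pi : ℂ) * Complex.I *
              ((f ((n : ℝ) + p.1 * ((n : ℝ) / N) + p.2) + r n : ℝ) : ℂ))‖ ^ (2 * k)) -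
          (k.factorial : ℝ) * ((N2 : ℝ) - N1 + 1) ^ k| ≤ K * ((N2 : ℝ) - N1 + 1) ^ (k - 1)) ∧
    (∃ A P : ℕ, ∀ c C : ℕ → ℝ, (∀ j, 0 < c j) →
      ∃ n0 : ℕ, ∀ N F : ℝ, ∀ f : ℝ → ℝ, 2 ≤ N → N ^ A ≤ F →
        ContDiffOn ℝ (⊤ : ℕ∞) f (Set.Icc N (2 * N)) →
        (∀ j ≤ P, ∀ x ∈ Set.Icc N (2 * N),
          c j * F / N ^ j ≤ |iteratedDerivWithin j f (Set.Icc N (2 * N)) x| ∧
          |iteratedDerivWithin j f (Set.Icc N (2 * N)) x| ≤ C j * F / N ^ j) →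
        ∀ (r : ℕ → ℝ) (N1 N2 : ℕ), N < (N1 : ℝ) → N1 + n0 ≤ N2 → (N2 : ℝ) + 4 < 2 * N →
        ENNReal.ofReal (1 / 16) ≤ volume {p : ℝ × ℝ | p.1 ∈ Set.Icc (0 : ℝ) 1 ∧
          p.2 ∈ Set.Icc (0 : ℝ) 1 ∧ ((N2 : ℝ) - N1 + 1) ≤ 2 * ‖∑ n ∈ Finset.Icc N1 N2,
            Complex.exp (2 * (Real.pi : ℂ) * Complex.I *
              ((f ((n : ℝ) + p.1 * ((n : ℝ) / N) + p.2) + r n : ℝ) : ℂ))‖ ^ 2}) :=
  ⟨fina (asy (offb (low coef) lip line (grid rect)) cnt),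
    finp (asy (offb (low coef) lip line (grid rect)) cnt)⟩

end Pool.Agent.Results.MP_493793_nt.GaussianMoments
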